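import Mathlib
import Pool.Agent.V1168.BB.Iso
import Pool.Agent.Y1.CT.Main

/-!
# The isomorphism `A^j ⊗ ℚ_ℓ ≅ H^(2 j)(j)^Γ` of Tate, with finitely generated `A^j`, for products of constant
abelian varieties of almost all slope types of all CM fields with arbitrary varieties

Let `K i` (`i` in a finite set) be CM fields of degree `2 g i`. Nothing is assumed about their Galois
groups. They are pairwise independent: for `i ≠ k` and all complex embeddings `φ` of `K i` and `ψ` of
`K k` some automorphism of `ℂ` is the identity on `φ (K i)` and the complex conjugation on `ψ (K k)`
(this is no condition if there is only one field). We fix an isomorphism `ν` of the algebraic closure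
of `ℚ_p` with `ℂ`; it defines a `p`-adic valuation of `ℂ`, with the value one at `p`. Let `M i` be a
function with nonzero integral values, all of which divide `n i`, on the complex embeddings of
`K i`, invariant under complex conjugation. A CM type `Φ i` of `K i` (a choice of one element out of
each complex conjugate pair of embeddings; there are `2 ^ (g i)` types), `M i` and a real number
`κ ≠ 0` prescribe the slopes `(a + κ M) / 2` (at the embeddings in `Φ i`) and `(a - κ M) / 2` (outside
of `Φ i`) of a Weil number for `p ^ a` in `K i` (`HasType`). If `p` splits completely in `K i` then,
by Honda and Tate, all slopes with rational values between `0` and `a` that are symmetric in this way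
occur for abelian varieties over finite fields. The case `M = 1`, `κ = a` is the case of ordinary
abelian varieties; the assumption on `M` says that `a / 2` is not a slope. Slopes are rational, so
integral weights `M` are no restriction.

There are `2 ^ (∑ i, g i)` families of CM types `Φ i` of the fields `K i`. A family is exceptional
(`exceptionalFamilies ν K M`) if the following statement (`Holds`) is false for it. Let `π i` be Weil
numbers for `q = p ^ a` that generate the fields `K i` and have the slope types `Φ i`, `M i`, and let
`f i` be monic polynomials whose complex roots are conjugates of `π i` (`IsPolyOf`), for instance the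
characteristic polynomials of Frobenius of the abelian varieties in the isogeny classes of the `π i`
over the field with `q` elements. Let `A` be an abelian variety over the field with `Q = q ^ s`
elements which is isogenous to a product of powers of abelian varieties coming from the field with
`q` elements, with characteristic polynomials `f i`, and let `k` be a field,
finitely generated over the field with `Q` elements, which is algebraically closed in `k`; let `B` be
a regular model of `k`. Let `Y` be **any** smooth projective variety over `k` such that, for all `b`,
the eigenvalues of the Frobenius of the field of constants on the space of the invariants of the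
**geometric** fundamental group of (an open part of) `B` in `H^b(Y)` are unrelated to the
fields `K i` (`DiagUnrelated`). The other Frobenius eigenvalues of `Y` do not matter. Powers of `Q`,
multiplied by roots of unity, are unrelated to all CM fields, so that nothing is assumed if the
geometric invariants in the `H^b(Y)` are (over a finite extension) Tate classes; for example, `Y` can
be any complete intersection (of any dimension) with large geometric monodromy. The case `k` finite
is the one of all varieties `Y` over the finite field with unrelated Frobenius eigenvalues.

A complex number `ρ ≠ 0` is unrelated to the fields `K i` (`Unrelated`) if a function `n` on the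
complex embeddings of `K i` with `n (conj φ) = - n φ` which is invariant under all automorphisms of
`ℂ` that fix a power of `ρ` is zero. This is so if for each embedding `ψ` of `K i` some automorphism
which fixes a power of `ρ` is the complex conjugation on `ψ (K i)`: for instance, if a power of `ρ`
lies in a field linearly disjoint from the normal closures of the `K i`, or in a totally real field.
It is also so if the degree of `ρ` is less than twice the dimension of each nonzero space of
functions `n` stable under all automorphisms of `ℂ` (less than `2 g i` if this representation is
irreducible, as it is for generic CM fields).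

Write `A^j(Y)` for the group of the classes of the cycles of codimension `j` (with **integral**
coefficients) in `H^(2 j)(Y, ℚ_ℓ(j))`, and `Γ` for the absolute Galois group of `k`. Then, for all `j`,

1. the group `A^j(A × Y)` is finitely generated if and only if the groups `A^(j - i)(Y)`,
   `0 ≤ i ≤ dim A`, are finitely generated;
2. `A^j(A × Y) ⊗ ℚ_ℓ → H^(2 j)(A × Y, ℚ_ℓ(j))` is injective if and only if the maps
   `A^(j - i)(Y) ⊗ ℚ_ℓ → H^(2 (j - i))(Y, ℚ_ℓ(j - i))`, `0 ≤ i ≤ dim A`, are injective;
3. **the group `A^j(A × Y)` is finitely generated with `A^j(A × Y) ⊗ ℚ_ℓ ≅ H^(2 j)(A × Y, ℚ_ℓ(j))^Γ`
   (question 1) if and only if the same is true for `Y` in all the codimensions `j - i`,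
   `0 ≤ i ≤ dim A`.**

So question 1 for `A × Y` and the prime `ℓ` is equivalent to question 1 for `Y`. For instance, if `Y`
is a point, then `A^j(A)` is finitely generated and `A^j(A) ⊗ ℚ_ℓ ≅ H^(2 j)(A, ℚ_ℓ(j))^Γ` for all `j`.
If `Y` is a surface then question 1 for `A × Y` in all codimensions is equivalent to the one for the
divisors on `Y`.

The framework: the Chow ring and the ring of correspondences of `A`, with rational coefficients, and
the cohomology of `A` with complex coefficients (we choose an isomorphism of the algebraic closure of
`ℚ_ℓ` with `ℂ`), with the formal properties and the theorems of Tate on divisors and of Kimura on the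
nilpotence of homologically trivial correspondences (`AbelianData`, `IsAbelian`); the groups
`T^(2 j)(Y, j)` and `T^(2 j)(A × Y, j)` of the cycles of codimension `j` modulo homological equivalence,
with rational coefficients, and in them those of the classes with integral coefficients
(`IntegralClasses`, `IsIntegralClasses`), with the products with classes on `A`, the
push-forward from `A × Y` to `Y`, the operation of the correspondences from `A` to `A` and the absolute
Frobenius endomorphism of `Y` (`RelData`, `IsRel`); the absolute Frobenius endomorphism of `A × Y` acts
on cycles of codimension `j` as multiplication by `Q ^ j` (`IsPureDiag`; `TateData`, `IsTateTheory`). The theory `R` consists of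
the invariants of the geometric fundamental group of `B` in the `ℓ`-adic cohomology groups of `Y`
and `A × Y`, vector spaces over `L = ℚ_ℓ` (`IsLinear`) with the same operations; the Frobenius
of the field of constants operates on them (through `Y`, as `frobN` and `frobM`), and the invariants
of `Γ` are the elements of `R^(2 j)(Y, j)` and of `R^(2 j)(A × Y, j)` which the Frobenius of the field of
constants multiplies by `Q ^ j` (`InvN`, `InvM`; for `A × Y` it is the product of the ones of `A`
and `Y`). The cycle class map `ρ` from `T` to `R` is injective and compatible with everything
(`IsClassMap`).

The theorem bounds the number of the exceptional families: it is at most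
`2 ^ (∑ i, g i) * ∑ i, C * (n i) ^ 2 * rate (K i) (g i) (q i)`, with an absolute constant `C`. Here
`q i` is any prime factor of `g i` (or `q i = 1`), and `rate K g q` is `(1 + log (2 g)) ^ 16` times
the smaller of the numbers `W (K) / √g` and `√g / q`; the second part of the theorem
(`WeightEstimate`) is `W (K) ≤ N ^ 2 * D ^ (1 / 4)`, where `N` is the number of the CM subfields of `K`
(with `K`) and `D` is the largest degree of a CM subfield of `K` that is normal over `ℚ` with a
nonabelian Galois group (`D = 1` if there are none). So the exceptional types are a proportion
`O (n ^ 2 * g ^ (-1 / 4) * (log g) ^ 16)` of all types of all CM fields with a bounded number of CM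
subfields. The number `W (K)` (`subfieldWeight K`) is the sum over the fields of definition `F` of the
isotypic components of the space of the odd functions on the complex embeddings of `K` of the number
of the CM subfields of `F`, multiplied by `[F : ℚ] ^ (1 / 4)` if `F` is normal over `ℚ` and its Galois
group is not abelian.

The proof. The bound for the number of the degenerate types is the one of the starting files
(`AllCMFields`, MP_e12fcd_ag, and `Y1.CT.ncard_of_unrel`): if the types are not degenerate, then a
product of `ρ` and of some eigenvalues of `A`, no two of them complex conjugate, is not a power of `q`,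
up to a root of unity, for all unrelated `ρ`.
If a Weil number `α` of the cohomology of `A` and an unrelated number `ρ` have the product `Q ^ j`, then
`α = Q ^ k` and `α` is a product of pairs of complex conjugate numbers, so that the eigenvectors of the
Frobenius endomorphism of `A` for `α` are products of divisor classes. There are products `D t` of
`c t` divisor classes on `A` with a dual system `E t` for the intersection pairing; let `p` be the
projector given by them. For a suitable polynomial `P` the correspondence `(1 - p) P (F)` is
homologically trivial, hence nilpotent, and `P (F)` is invertible on the invariants of `Γ` and on the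
cycles, as the Frobenius endomorphism of `Y` satisfies there a polynomial with unrelated roots `ρ`,
and the one `F` of `A` satisfies the polynomial with the roots `Q ^ j / ρ`. So `p` acts as
the identity: `m = ∑ D t × (E t)_* m` for all invariant classes `m` on `A × Y`. A multiple
`N = N_t' N_t` of this formula has integral coefficients, and gives homomorphisms `a t` from
`A^(j - c t)(Y)` to `A^j(A × Y)` and `b t` in the other direction with `b t (a t y) = N y` and
`∑ a t (b t m) = N m`. As the groups are torsion-free, this shows (1); the same formulas on the tensor
products with `ℚ_ℓ`, where `N` is invertible, show (2), and together with the formula for the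
invariants (3).
-/

set_option autoImplicit false

namespace Pool.Agent.Results.MP_0fca13_ag.AllCMTypesTimes

open NumberField Module Pool.Agent.H204R3.CM Pool.Agent.H977R3.CM Pool.Agent.TH170
  Pool.Agent.Y1.KN Pool.Agent.Y1.CT Pool.Agent.V1168.BB

/-- The equivalence of the conjecture of Tate for `A × Y` with the one for `Y` holds for all abelian
varieties `A` whose Frobenius eigenvalues are powers of conjugates of Weil numbers with the slope types
`Φ i`, `M i`, and all `Y` unrelated to the fields `K i`. -/
def Holds {p : ℕ} [Fact p.Prime] (ν : PadicAlgCl p ≃+* ℂ) {I : Type} (K : I → Type)
    [∀ i, Field (K i)] [∀ i, NumberField (K i)] [∀ i, IsCMField (K i)]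
    (M : ∀ i, (K i →+* ℂ) → ℤ) (Φ : ∀ i, Set (K i →+* ℂ)) : Prop :=
  ForAllTypes ν K M (TateIsoTimes K) Φ

/-- The exceptional families of CM types. -/
def exceptionalFamilies {p : ℕ} [Fact p.Prime] (ν : PadicAlgCl p ≃+* ℂ) {I : Type} (K : I → Type)
    [∀ i, Field (K i)] [∀ i, NumberField (K i)] [∀ i, IsCMField (K i)]
    (M : ∀ i, (K i →+* ℂ) → ℤ) : Set (∀ i, Set (K i →+* ℂ)) :=
  {Φ | (∀ i, IsCMType (Φ i)) ∧ ¬ Holds ν K M Φ}

/-- **The group `A^j(A × Y)` is finitely generated and `A^j(A × Y) ⊗ ℚ_ℓ ≅ H^(2 j)(A × Y, ℚ_ℓ(j))^Γ` if and
only if this is true for `Y` in the codimensions `j - i`, `0 ≤ i ≤ dim A`, for the constant abelian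
varieties `A` of almost all slope types of all CM fields and all unrelated varieties `Y` over
finitely generated fields.** -/
theorem result :
    (∃ C : ℝ, 0 ≤ C ∧ ∀ (p : ℕ) [Fact p.Prime] (ν : PadicAlgCl p ≃+* ℂ) (I : Type) [Fintype I]
      (K : I → Type) [∀ i, Field (K i)] [∀ i, NumberField (K i)] [∀ i, IsCMField (K i)]
      (M : ∀ i, (K i →+* ℂ) → ℤ) (n g q : I → ℕ), PairwiseIndep K →
      (∀ i φ, M i (ComplexEmbedding.conjugate φ) = M i φ) → (∀ i, n i ≠ 0) →
      (∀ i φ, M i φ ∣ (n i : ℤ)) → (∀ i, finrank ℚ (K i) = 2 * g i) →
      (∀ i, q i ∣ g i ∧ (q i = 1 ∨ (q i).Prime)) →
      ((exceptionalFamilies ν K M).ncard : ℝ) ≤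
        2 ^ (∑ i, g i) * ∑ i, C * (n i : ℝ) ^ 2 * rate (K i) (g i) (q i)) ∧
    WeightEstimate := by
  obtain ⟨C, hC0, hC⟩ := ncard_of_unrel
  refine ⟨⟨C, hC0, ?_⟩, weight_estimate_holds⟩
  intro p _ ν I _ K _ _ _ M n g q hind hM hn hMn hg hq
  exact hC p ν I K M n g q hind hM hn hMn hg hq _ fun Q f hQ hR => tateIsoTimes hQ hR

end Pool.Agent.Results.MP_0fca13_ag.AllCMTypesTimes
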