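import Mathlib
import Pool.Agent.V1168.EV.Iso
import Pool.Agent.V1168.EV.Rel

/-!
# The isomorphism `A^j ⊗ ℚ_ℓ ≅ H^(2 j)(j)^Γ` of Tate, with finitely generated `A^j`, for the products of
**every** variety with abelian varieties outside of finitely many lines of slope vectors

Let `K i` (`i` in a finite set) be CM fields with pair flips (`PairFlips`): for any two complex
embeddings `φ` of `K i` and `ψ` of `K k` (with `i = k` or not) which are neither equal nor complex
conjugate, some automorphism of `ℂ` is the identity on `φ (K i)` and the complex conjugation on
`ψ (K k)`. One CM field `K` of degree `2 g` has this property if the Galois group of its normal closure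
is the largest possible one (of order `2 ^ g g!`), or contains, for each pair of complex conjugate
embeddings, an element which exchanges them and fixes all other embeddings, or contains all the
automorphisms that exchange two pairs in this sense (`g > 2`); several such fields with linearly
disjoint normal closures have it together. We fix an isomorphism `ν` of the algebraic closure of `ℚ_p`
with `ℂ`; it defines a `p`-adic valuation `v` of `ℂ` with `v p = 1`. The slope vector of a Weil number
`π` for `p ^ a` in `K i` is the function `2 v (φ π) - a` on the complex embeddings `φ` of `K i`
(`slopeVector`); it is odd: its values at conjugate embeddings are opposite.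

Let `π i` be Weil numbers for `q = p ^ a` in `K i` with nonzero slope vectors, and let `f i` be monic
polynomials whose complex roots are conjugates of `π i` (`IsPolyOf`), for instance the characteristic
polynomials of Frobenius of the abelian varieties in the isogeny classes of the `π i` over the field
with `q` elements. Let `A` be an abelian variety over the field with `Q = q ^ s` elements which is
isogenous to a product of powers of abelian varieties coming from the field with `q` elements, with
characteristic polynomials `f i` (`IsAbelian`).

Let `k` be a field, finitely generated over the field with `Q` elements, which is algebraically
closed in `k`; let `B` be a regular model of `k`, and let `Y` be **any** smooth projective variety over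
`k`.
A number `ρ` comes from the finite set `Ω` of complex numbers (`From p Ω`) if it is not zero and a power
of it is the product of a power of a conjugate of an element of `Ω`, or of `1`, and of a power of `p`.
Let `Ω` be such that all Frobenius eigenvalues of `Y` come from `Ω`, that is the eigenvalues of the
Frobenius of the field of constants on the spaces of the invariants of the geometric fundamental
group of (an open part of) `B` in the `H^b(Y)` (`DiagFrom`). **Such a finite set exists for every `Y`**:
take one root of each irreducible factor of the characteristic polynomials. If `k` is finite these are
the usual Frobenius eigenvalues.

**The theorem: there is a set `E` of at most `|Ω|` lines, each of them in the space of the functions on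
the complex embeddings of one of the fields `K i`, such that for all `a`, all `π i` whose slope vectors
are not on the lines in `E`, all `f i`, `s`, `A` and all `Y` as above, the conjecture of Tate for `A × Y` is equivalent to the one for `Y`:** The lines depend only
on `ν`, the fields and `Ω`, and not on the Weil numbers, on the powers of the abelian varieties, on the
finite field or on `Y`. So for one field `K` and a given `Y` all the Weil numbers in `K` are
allowed, except those whose slope vector is a multiple of one of at most `|Ω|` vectors in the
`g`-dimensional space of the odd functions; for instance, at most `2 |Ω|` of the `2 ^ g` slope types of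
the ordinary abelian varieties with complex multiplication by `K` are exceptional for `Y`. (Exceptions
to the Künneth formula behind the theorem are necessary: if `Y = A` then there are divisor classes in
`H^1(A) ⊗ H^1(Y)`.)

The results of the starting files of this kind, and my `AllCMTypesTimes`, are about varieties `Y` whose
Frobenius eigenvalues are unrelated to the fields `K i` or have small slopes. **Here the Frobenius
eigenvalues of `Y` are arbitrary**: they may generate the same fields `K i`, or fields containing them.

Write `A^j(Y)` for the group of the classes of the cycles of codimension `j` (with **integral**
coefficients) in `H^(2 j)(Y, ℚ_ℓ(j))`, and `Γ` for the absolute Galois group of `k`. Then, for all `j`,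

1. the group `A^j(A × Y)` is finitely generated if and only if the groups `A^(j - i)(Y)`,
   `0 ≤ i ≤ dim A`, are finitely generated;
2. `A^j(A × Y) ⊗ ℚ_ℓ → H^(2 j)(A × Y, ℚ_ℓ(j))` is injective if and only if the maps
   `A^(j - i)(Y) ⊗ ℚ_ℓ → H^(2 (j - i))(Y, ℚ_ℓ(j - i))`, `0 ≤ i ≤ dim A`, are injective;
3. **the group `A^j(A × Y)` is finitely generated with `A^j(A × Y) ⊗ ℚ_ℓ ≅ H^(2 j)(A × Y, ℚ_ℓ(j))^Γ`
   (question 1) if and only if the same is true for `Y` in all the codimensions `j - i`,
   `0 ≤ i ≤ dim A`.**

The framework: the Chow ring and the ring of correspondences of `A`, with rational coefficients, and
the cohomology of `A` with complex coefficients (we choose an isomorphism of the algebraic closure of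
`ℚ_ℓ` with `ℂ`), with the formal properties and the theorems of Tate on divisors and of Kimura on the
nilpotence of homologically trivial correspondences (`AbelianData`, `IsAbelian`); the groups
`T^(2 j)(Y, j)` and `T^(2 j)(A × Y, j)` of the cycles of codimension `j` modulo homological equivalence,
with rational coefficients, and in them those of the classes with integral coefficients
(`IntegralClasses`, `IsIntegralClasses`), with the products with classes on `A`, the
push-forward from `A × Y` to `Y`, the operation of the correspondences from `A` to `A` and the absolute
Frobenius endomorphism of `Y` (`RelData`, `IsRel`); the absolute Frobenius endomorphism of `A × Y` acts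
on cycles of codimension `j` as multiplication by `Q ^ j` (`IsPureDiag`; `TateData`, `IsTateTheory`). The
theory `R` consists of the invariants of the geometric fundamental group of `B` in the `ℓ`-adic
cohomology groups of `Y` and `A × Y`, vector spaces over `L = ℚ_ℓ` (`IsLinear`) with the same
operations; the Frobenius of the field of constants operates on them (through `Y`, as `frobN` and
`frobM`), and the invariants of `Γ` are the elements of `R^(2 j)(Y, j)` and of `R^(2 j)(A × Y, j)` which
the Frobenius of the field of constants multiplies by `Q ^ j` (`InvN`, `InvM`; for `A × Y` it is the
product of the ones of `A` and `Y`). The cycle class map `ρ` from `T` to `R` is injective and compatible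
with everything (`IsClassMap`).

The proof. Let `x i` be the slope vectors of the `π i`, and let `ρ` be a number that comes from
`β ∈ Ω`. If a product of `ρ` and of roots of the `f i`, no two of them complex conjugate, is a power of
`q` up to a root of unity, then, computing valuations, there are odd functions `n i`, not all zero, and
constants with `∑ n i φ * x i (σ φ) = c₁ v (σ β) + c₂` for all automorphisms `σ` of `ℂ` (the sum over all `i`
and all embeddings `φ`; the automorphism in the definition of `From` is absorbed by `n`). Take the odd
part, and average over the automorphisms which fix a given embedding `φ₀` of `K i`: by the pair flips
the average of an odd function is zero except at `φ₀` and its conjugate, so that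
`n i (σ⁻¹ φ₀) * x i φ₀` is determined by `c₁` and `β` (`EV.key`). For `β = 1` all these numbers are
zero, and there are no relations, as `x i` is not zero. In general it follows that, for each `i` with `n i` not zero, `x i` is
determined up to a factor by `β`: this is the exceptional line of `β` (`EV.exists_lines`). (The odd
functions on the embeddings of the `K i` are absolutely irreducible representations, not isomorphic
for different `i`.) Hence there are no such relations outside of the lines (`EV.exactPair_of`).
If a Weil number `α` of the cohomology of `A` and a number `ρ` from `Ω` have the product `Q ^ j`, then
`α = Q ^ k` and `α` is a product of pairs of complex conjugate numbers, so that the eigenvectors of the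
Frobenius endomorphism of `A` for `α` are products of divisor classes. There are products `D t` of
`c t` divisor classes on `A` with a dual system `E t` for the intersection pairing; let `p` be the
projector given by them. For a suitable polynomial `P` the correspondence `(1 - p) P (F)` is
homologically trivial, hence nilpotent, and `P (F)` is invertible on the invariants of `Γ` and on the
cycles. So `p` acts as the identity: `m = ∑ D t × (E t)_* m` for all invariant classes `m` on `A × Y`. A
multiple of this formula has integral coefficients, whence (1), (2), (3) (`EV.tateIsoTimes`).
-/

set_option autoImplicit false

namespace Pool.Agent.Results.MP_0fca13_ag.EveryVarietyTimes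

open NumberField Pool.Agent.V1168.EV

/-- **For every variety `Y`, whose Frobenius eigenvalues come from the finite set `Ω`, and all abelian
varieties `A` whose slope vectors are outside of at most `|Ω|` lines, the group `A^j(A × Y)` is finitely
generated with `A^j(A × Y) ⊗ ℚ_ℓ ≅ H^(2 j)(A × Y, ℚ_ℓ(j))^Γ` if and only if this is true for `Y` in the
codimensions `j - i`, `0 ≤ i ≤ dim A`.** -/
theorem result {p : ℕ} [Fact p.Prime] (ν : PadicAlgCl p ≃+* ℂ) {I : Type} [Finite I]
    (K : I → Type) [∀ i, Field (K i)] [∀ i, NumberField (K i)] [∀ i, IsCMField (K i)]
    (hK : PairFlips K) (Ω : Finset ℂ) :
    ∃ E : Finset (Σ i, ((K i →+* ℂ) → ℝ)), E.card ≤ Ω.card ∧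
      ForAllOutside ν K (TateIsoTimes p Ω) E := by
  obtain ⟨E, hE, h⟩ := exists_lines_forall ν K hK Ω
  exact ⟨E, hE, h _ fun q f hq hR => tateIsoTimes hq hR⟩

end Pool.Agent.Results.MP_0fca13_ag.EveryVarietyTimes
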