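import Pool.Agent.V1141.NG.Gal

/-!
# The Tate classes of all products of given varieties are generated by products with few factors

Let `F` be a finitely generated field of any characteristic, with separable closure `k` and Galois
group `Γ`, and let `W` be the `ℓ`-adic cohomology of the varieties over `k`. Let `X 1, …, X r` be
arbitrary smooth projective varieties (of any dimension, with any Galois image). We study the Tate
classes, over all finite extensions of `F`, on all products `X i₁ × ⋯ × X iₘ` with any number of
factors (repetitions are allowed); a sub-product is the product over a subsequence of the sequence of
indices.

**Theorem.** There is a number `N` with the following properties, for all products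
`Z = X i₁ × ⋯ × X iₘ`.

1. Every Tate class of positive codimension on `Z` lies in the ideal of the cohomology ring of `Z`
   which is generated by the pull-backs of the Tate classes of positive codimension on the
   sub-products with at most `N` factors.
2. Suppose that the duality pairing between the Tate classes of complementary codimensions is
   nondegenerate for `Z` and its sub-products. (This is the conjecture `S` of Tate. It holds if
   the group `Γ` acts semisimply on the cohomology of the `X i`, for instance for all products of
   abelian varieties, curves and K3 surfaces.) Then all Tate classes on `Z` are polynomials in
   pull-backs of Tate classes on the sub-products with at most `N` factors. If the Tate conjecture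
   holds for the sub-products of `Z` with at most `N` factors, then it holds for `Z`,
   homological and numerical equivalence agree on `Z`, and cycle classes on `Z` which are linearly
   independent over the rational numbers are linearly independent over the coefficient field.

So the Tate conjecture for all products of copies of the `X i`, in particular for all powers of a
variety, is a statement about finitely many Tate classes. The proof does not use motivic
Galois groups, algebraic groups or the standard conjecture of Lefschetz: words in homogeneous bases of
the cohomology of the `X i` span the cohomology of the products. By the lemma of Higman on
subwords, applied to leading words, the ideals generated by the Tate classes of positive codimension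
are, for all products with many factors, generated by the pull-backs from proper sub-products. If the
Tate classes are nondegenerate, one can project the coefficients in such a representation onto the
Tate classes, along their orthogonal complement, and this lowers the codimension.
-/

set_option autoImplicit false

open CategoryTheory AlgebraicGeometry

universe u v w

namespace Pool.Agent.Results.MP_0fca13_ag.FewFactors

open Pool.Agent.H914 Pool.Agent.V1141.NG Pool.Agent.Y103.Hk VarClass Obj WeilCohomology

/-- **The ring of the Tate classes of all products of given varieties is generated by the products
with a bounded number of factors.** -/
theorem result {k : Type u} [Field k] {𝒱 : VarClass k} {ops : CycleOps 𝒱}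
    (W : WeilCohomology.{u, v} ops) {Γ : Type w} [Group Γ] (Φ : GaloisSystem W Γ)
    {r : ℕ} (X : Fin r → 𝒱.Obj) :
    ∃ N : ℕ, ∀ (i : Fin r) (I : List (Fin r)),
      (∀ c, 0 < c → ∀ x, IsTateClass Φ (prodL X i I) c x →
        x ∈ idealFrom (IsTateClass Φ) X N i I) ∧
      ((∀ j J, IsSub j J i I → TateNondeg Φ (prodL X j J)) →
        (∀ c x, IsTateClass Φ (prodL X i I) c x → x ∈ ringFrom (IsTateClass Φ) X N i I) ∧
        ((∀ j J, IsSub j J i I → J.length + 1 ≤ N → TateConj Φ (prodL X j J)) →
          TateConj Φ (prodL X i I) ∧ HomEqNum W (prodL X i I) ∧
            InjectiveCycleMap W (prodL X i I))) :=
  tate_main Φ X

end Pool.Agent.Results.MP_0fca13_ag.FewFactors
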