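import Pool.Agent.V1142.XZ.GalTimes

/-!
# The index law for the Tate classes on the products `Z × X^n`

In the intended use the varieties are the smooth projective ones over a finitely generated field
`k` (or those of any class of them which is closed under products), `W` is the `ℓ`-adic
cohomology, `Γ` is the absolute Galois group of `k` with its actions `ρ`, the cycles are those
defined over `k` and `χ` is the inverse of the cyclotomic character.

Let `X` be a variety, let `t(Y)` be the number of linearly independent Tate classes (of all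
codimensions) on `Y`, let `r(Y)` be the rank of the group of algebraic cycles on `Y` modulo
numerical equivalence and let `b(Y)` be the total Betti number. There is `N` in `{1, 2, …, ∞}` such
that

* `t(X^n) / r(X^n)` tends to `N`, and `N = 1` if and only if the Tate conjecture holds and
  homological and numerical equivalence agree for all powers of `X`.

For every variety `Z` there are `P` in `{1, 2, …, ∞}` and an integer `0 ≤ q ≤ b(Z)` with `N ≤ P` and
`N q ≤ P` such that

* `t(Z × X^n) / r(X^n)` tends to `P`, and `r(Z × X^n) / r(X^n)` tends to `q` if `N` is finite;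
* `t(Z × X^n) / r(Z × X^n)` tends to `P / q`;
* the Tate conjecture holds and homological and numerical equivalence agree for all products
  `Z × X^n` if and only if `P = q`; otherwise `r(Z × X^n)` is asymptotically at most
  `b(Z) / (b(Z) + 1)` times `t(Z × X^n)`.
-/

open CategoryTheory AlgebraicGeometry Filter Topology

open scoped ENNReal

universe u v w

namespace Pool.Agent.Results.MP_0fca13_ag.IndexTimes

open Pool.Agent.H914 Pool.Agent.V1142.XZ
open Pool.Agent.Y133.Half (pw cycRank HasIndex)

variable {k : Type u} [Field k] {𝒱 : VarClass k} {ops : CycleOps 𝒱}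

/-- The index law: `pw X n` is the product of `n + 1` copies of `X`. -/
theorem result (W : WeilCohomology.{u, v} ops) {Γ : Type w} [Group Γ] (χ : Γ →* W.Kˣ)
    (ρ : ∀ Y : 𝒱.Obj, Γ →* (W.H Y ≃ₐ[W.K] W.H Y)) (h : GaloisTheory W χ ρ) (X : 𝒱.Obj)
    [Nontrivial (W.H X)] :
    ∃ N : ℕ∞, 1 ≤ N ∧
      HasIndex (fun n => tateDim W χ ρ (pw X n)) (fun n => cycRank ops (pw X n)) N ∧
      (N = 1 ↔ ∀ n, TateConj W χ ρ (pw X n) ∧ HomEqNum W (pw X n)) ∧
      ∀ Z : 𝒱.Obj, Nontrivial (W.H Z) → ∃ (P : ℕ∞) (q : ℕ), N ≤ P ∧ N * q ≤ P ∧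
        q ≤ Module.finrank W.K (W.H Z) ∧
        HasIndex (fun n => tateDim W χ ρ (Z.prod (pw X n))) (fun n => cycRank ops (pw X n)) P ∧
        (N ≠ ⊤ → HasIndex (fun n => cycRank ops (Z.prod (pw X n)))
          (fun n => cycRank ops (pw X n)) q) ∧
        Tendsto (fun n => (tateDim W χ ρ (Z.prod (pw X n)) : ℝ≥0∞) /
          cycRank ops (Z.prod (pw X n))) atTop (𝓝 ((P : ℝ≥0∞) / q)) ∧
        (P = q ↔ ∀ n, TateConj W χ ρ (Z.prod (pw X n)) ∧ HomEqNum W (Z.prod (pw X n))) ∧
        (P ≠ q → AtMost (Module.finrank W.K (W.H Z) / (Module.finrank W.K (W.H Z) + 1))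
          (fun n => cycRank ops (Z.prod (pw X n)))
          (fun n => tateDim W χ ρ (Z.prod (pw X n)))) :=
  gal_times h X

end Pool.Agent.Results.MP_0fca13_ag.IndexTimes
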